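import Mathlib
import Pool.Agent.Helper332.NB4

set_option autoImplicit false

/-!
The Noetherian base constructed from a base of point-finite rank does not have larger rank at any
point.
-/

universe u

namespace Pool.Agent.Y586.NB

open Set Pool.Agent.Helper332.NB

variable {X : Type u}

/-- `Γ` has rank at most `n` at `x`: every incomparable subfamily whose members all contain `x`
has at most `n` members. -/
def RankLE (Γ : Set (Set X)) (x : X) (n : ℕ) : Prop :=
  ∀ A ⊆ Γ, (∀ U ∈ A, x ∈ U) → Incomparable A → A.encard ≤ n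

theorem rank_cl {B : Set (Set X)} {x : X} {n : ℕ} (hn : RankLE B x n) (l : List (Set X))
    (hl : ∀ U ∈ l, U ∈ cl B ∧ x ∈ U) (hp : l.Pairwise (fun a b => ¬ a ⊆ b ∧ ¬ b ⊆ a)) :
    l.length ≤ n := by
  have hget : ∀ i j : Fin l.length, i ≠ j → ¬ l.get i ⊆ l.get j := by
    intro i j hij
    rw [List.pairwise_iff_get] at hp
    rcases lt_or_gt_of_ne hij with h | h
    · exact (hp i j h).1
    · exact (hp j i h).2
  have hy : ∀ i j : Fin l.length, ∃ y, i ≠ j → y ∈ l.get i ∧ y ∉ l.get j := by
    intro i j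
    by_cases hij : i = j
    · exact ⟨x, fun h => absurd hij h⟩
    · obtain ⟨y, hy1, hy2⟩ := Set.not_subset.1 (hget i j hij)
      exact ⟨y, fun _ => ⟨hy1, hy2⟩⟩
  choose y hy using hy
  have hV : ∀ i : Fin l.length, ∃ V ∈ B, ({x} ∪ (y i) '' {j | i ≠ j}) ⊆ V ∧ V ⊆ l.get i := by
    intro i
    refine (hl _ (List.get_mem l i)).1 _ ((finite_singleton x).union ((toFinite _).image _)) ?_
    refine union_subset (singleton_subset_iff.2 (hl _ (List.get_mem l i)).2) ?_
    rintro _ ⟨j, hj, rfl⟩
    exact (hy i j hj).1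
  choose V hVB hFV hVl using hV
  have hinc : ∀ i j, V i ⊆ V j → i = j := by
    intro i j hij
    by_contra hne
    exact (hy i j hne).2 (hVl j (hij (hFV i (Or.inr ⟨j, hne, rfl⟩))))
  have hinj : Function.Injective V := fun i j h => hinc i j h.subset
  have := hn (range V) (by rintro _ ⟨i, rfl⟩; exact hVB i)
    (by rintro _ ⟨i, rfl⟩; exact hFV i (Or.inl rfl))
    (by rintro _ ⟨i, rfl⟩ _ ⟨j, rfl⟩ h; rw [hinc i j h])
  rw [← image_univ, hinj.encard_image, encard_univ] at this
  simpa using this

theorem rank_sub_cl {B B' : Set (Set X)} (hB' : B' ⊆ cl B) {x : X} {n : ℕ} (hn : RankLE B x n) :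
    RankLE B' x n := by
  intro A hA hx hinc
  by_contra hcon
  rw [not_le] at hcon
  obtain ⟨A', hA', hcard⟩ := exists_subset_encard_eq (s := A) (k := ((n + 1 : ℕ) : ℕ∞))
    (by exact_mod_cast Order.add_one_le_of_lt hcon)
  have hfin : A'.Finite := finite_of_encard_eq_coe hcard
  have hlen : hfin.toFinset.toList.length = n + 1 := by
    rw [Finset.length_toList]
    rw [hfin.encard_eq_coe_toFinset_card] at hcard
    exact_mod_cast hcard
  have := rank_cl hn hfin.toFinset.toList (by
    intro U hU
    have hU' : U ∈ A' := by simpa using hU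
    exact ⟨hB' (hA (hA' hU')), hx U (hA' hU')⟩) (by
    refine (Finset.nodup_toList hfin.toFinset).imp_of_mem ?_
    intro U V hU hV hne
    have hU' : U ∈ A := hA' (by simpa using hU)
    have hV' : V ∈ A := hA' (by simpa using hV)
    exact ⟨fun h => hne (hinc U hU' V hV' h), fun h => hne (hinc V hV' U hU' h).symm⟩)
  omega

/-- Every base of point-finite rank of a `T1` space is approximated from inside by a Noetherian
base. -/
theorem main [TopologicalSpace X] [T1Space X] {B : Set (Set X)}
    (hB : TopologicalSpace.IsTopologicalBasis B) (hr : PointFiniteRank B) :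
    ∃ B' : Set (Set X), TopologicalSpace.IsTopologicalBasis B' ∧ Noetherian B' ∧
      B' ⊆ cl B ∧ (∀ U ∈ B', U.Nonempty) := by
  obtain ⟨ord, wf⟩ := exists_wellFoundedLT X
  have hC : Good (cl B) := good_cl hB hr
  refine ⟨N (cl B), ?_, ?_, fun U hU => (N_sub hU).1, fun U hU => (N_sub hU).2⟩
  · refine TopologicalSpace.isTopologicalBasis_of_isOpen_of_nhds
      (fun U hU => hC.isOpen U (N_sub hU).1) ?_
    intro x U hx hU
    obtain ⟨D, hD, hxD, hDU⟩ := isBase hC x U hU hx
    exact ⟨D, hD, hxD, hDU⟩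
  · rintro ⟨G, hG, hs⟩
    exact noetherian hC G hG hs

end Pool.Agent.Y586.NB
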